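import Mathlib.AlgebraicGeometry.Morphisms.Proper
import Mathlib.RingTheory.RegularLocalRing.Defs
import Mathlib.Topology.KrullDimension
import Mathlib.FieldTheory.RatFunc.Basic
import Mathlib.FieldTheory.PurelyInseparable.Basic
import Mathlib.RingTheory.AdjoinRoot
import Mathlib.GroupTheory.Finiteness
import Mathlib.Algebra.Field.ZMod

/-!
# Motivic cohomology of arithmetic schemes and of finitely generated fields: definitions
-/

set_option autoImplicit false

open CategoryTheory AlgebraicGeometry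

universe v

namespace Pool.Agent.X308.D

/-- The data of motivic cohomology: groups `H X i n` (for `H^i(X, ℚ(n))`) with pull-back maps, and
groups `Het X i n` (for `H^i(X_et, ℤ(n))`). -/
structure MotivicData where
  /-- the group `H^i(X, ℚ(n))` -/
  H : Scheme.{0} → ℤ → ℤ → Type v
  [group : ∀ X i n, AddCommGroup (H X i n)]
  /-- the pull-back maps -/
  map : ∀ {X Y : Scheme.{0}}, (X ⟶ Y) → ∀ i n : ℤ, H Y i n →+ H X i n
  /-- the group `H^i(X_et, ℤ(n))` -/
  Het : Scheme.{0} → ℤ → ℤ → Type v
  [groupEt : ∀ X i n, AddCommGroup (Het X i n)]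

attribute [instance] MotivicData.group MotivicData.groupEt

variable (M : MotivicData.{v})

/-- `H^i(R, ℚ(n))` for a commutative ring `R`. -/
abbrev MotivicData.Ring (R : Type) [CommRing R] (i n : ℤ) : Type v :=
  M.H (Spec (CommRingCat.of R)) i n

/-- The map `H^i(R, ℚ(n)) → H^i(S, ℚ(n))` induced by a homomorphism `R → S`. -/
noncomputable def MotivicData.pull {R S : Type} [CommRing R] [CommRing S] (φ : R →+* S)
    (i n : ℤ) : M.Ring R i n →+ M.Ring S i n :=
  M.map (Spec.map (CommRingCat.ofHom φ)) i n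

/-- `H^i(F, ℚ(n)) = 0` for the field `F`. -/
def MotivicData.VanishesOn (F : Type) [Field F] (i n : ℤ) : Prop := ∀ a : M.Ring F i n, a = 0

/-- The exact sequence
`0 → H^(i+1)(F, ℚ(n+1)) → H^(i+1)(F(t), ℚ(n+1)) → ⊕_p H^i(F[t]/(p), ℚ(n)) → 0` of Milnor type, the
sum over the irreducible polynomials (up to units): the residue maps exist, are surjective, vanish
on the image of `H^(i+1)(F, ℚ(n+1))`, and a class all of whose residues vanish comes from
`H^(i+1)(F, ℚ(n+1))`. -/
def MilnorSequence (F : Type) [Field F] (i n : ℤ) : Prop :=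
  ∃ res : ∀ p : Polynomial F, M.Ring (RatFunc F) (i + 1) (n + 1) →+ M.Ring (AdjoinRoot p) i n,
    (∀ p, Irreducible p → Function.Surjective (res p)) ∧
    (∀ p, Irreducible p → ∀ b, res p (M.pull (algebraMap F (RatFunc F)) (i + 1) (n + 1) b) = 0) ∧
    ∀ a, (∀ p, Irreducible p → res p a = 0) →
      ∃ b, M.pull (algebraMap F (RatFunc F)) (i + 1) (n + 1) b = a

/-- A field. -/
structure FieldObj where
  /-- the underlying type -/
  carrier : Type
  [field : Field carrier]

attribute [instance] FieldObj.field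

/-- The field `k(t_1, …, t_m)` of rational functions in `m` variables. -/
noncomputable def rationalFunctions (k : FieldObj) : ℕ → FieldObj
  | 0 => k
  | m + 1 => ⟨RatFunc (rationalFunctions k m).carrier⟩

/-- `k` is a prime field and `e` is its Kronecker dimension: `k = 𝔽_p` and `e = 0`, or `k = ℚ` and
`e = 1`. -/
def IsPrimeField (k : FieldObj) (e : ℕ) : Prop :=
  (∃ (p : ℕ) (_ : Fact p.Prime), k = ⟨ZMod p⟩ ∧ e = 0) ∨ (k = ⟨ℚ⟩ ∧ e = 1)

/-- The field `F` is finitely generated and `d` is its Kronecker dimension: `F` is a finite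
extension of `𝔽_p(t_1, …, t_d)` or of `ℚ(t_1, …, t_(d-1))`. -/
def HasKroneckerDim (F : Type) [Field F] (d : ℕ) : Prop :=
  ∃ (k : FieldObj) (e m : ℕ) (_ : Algebra (rationalFunctions k m).carrier F),
    IsPrimeField k e ∧ m + e = d ∧ FiniteDimensional (rationalFunctions k m).carrier F

/-- `X` is a proper, regular, connected arithmetic scheme of dimension `d`. -/
structure IsArithmetic (X : Scheme.{0}) (d : ℕ) : Prop where
  proper : ∃ f : X ⟶ Spec (CommRingCat.of ℤ), IsProper f
  regular : ∀ x : X, IsRegularLocalRing (X.presheaf.stalk x)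
  connected : ConnectedSpace X
  dim : topologicalKrullDim X = d

/-- A consequence of the coniveau spectral sequence: if `H^(i-2c)(κ, ℚ(n-c)) = 0` for all
finitely generated fields `κ` of Kronecker dimension `d - c`, `0 ≤ c ≤ d`, then
`H^i(X, ℚ(n)) = 0` for `X` of dimension `d`. -/
def Coniveau : Prop :=
  ∀ (d : ℕ) (X : Scheme.{0}), IsArithmetic X d → ∀ i n : ℤ,
    (∀ (c : ℕ) (κ : Type) [Field κ], c ≤ d → HasKroneckerDim κ (d - c) →
      M.VanishesOn κ (i - 2 * c) (n - c)) → ∀ a : M.H X i n, a = 0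

/-- A consequence of the existence of regular alterations (de Jong), of transfer maps and of the
localization sequences: every finitely generated field `F` of Kronecker dimension `d` has a finite
extension which is the function field of some `X` as in the problem, and if `H^i(X, ℚ(n)) = 0` and
the groups of the points of codimension `c ≥ 1` of `X` vanish then `H^i(F, ℚ(n)) = 0`. -/
def Alterations : Prop :=
  ∀ (d : ℕ) (F : Type) [Field F], HasKroneckerDim F d → ∃ X : Scheme.{0}, IsArithmetic X d ∧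
    ∀ i n : ℤ, (∀ a : M.H X i n, a = 0) →
      (∀ (c : ℕ) (κ : Type) [Field κ], 1 ≤ c → c ≤ d → HasKroneckerDim κ (d - c) →
        M.VanishesOn κ (i + 1 - 2 * c) (n - c)) → M.VanishesOn F i n

/-- Known properties of motivic cohomology with rational coefficients, and (`etale`) its relation
to the étale motivic cohomology in negative degrees, which is listed as known in the problem. -/
structure KnownProperties : Prop where
  map_id : ∀ (X : Scheme.{0}) (i n : ℤ) (a : M.H X i n), M.map (𝟙 X) i n a = a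
  map_comp : ∀ (X Y Z : Scheme.{0}) (f : X ⟶ Y) (g : Y ⟶ Z) (i n : ℤ) (a : M.H Z i n),
    M.map (f ≫ g) i n a = M.map f i n (M.map g i n a)
  rational : ∀ (X : Scheme.{0}) (i n : ℤ) (N : ℕ), N ≠ 0 →
    Function.Bijective (fun a : M.H X i n => N • a)
  injective : ∀ (F L : Type) [Field F] [Field L] (φ : F →+* L) (i n : ℤ),
    Function.Injective (M.pull φ i n)
  inseparable : ∀ (F L : Type) [Field F] [Field L] [Algebra F L] [IsPurelyInseparable F L]
    (i n : ℤ), Function.Surjective (M.pull (algebraMap F L) i n)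
  milnor : ∀ (F : Type) [Field F] (i n : ℤ), MilnorSequence M F i n
  /-- by Quillen and Borel -/
  prime : ∀ (k : FieldObj) (e : ℕ), IsPrimeField k e → ∀ n : ℤ, 1 ≤ n →
    M.VanishesOn k.carrier 0 n
  coniveau : Coniveau M
  alterations : Alterations M
  etale : ∀ (d : ℕ) (X : Scheme.{0}), IsArithmetic X d → ∀ i : ℤ, i < 0 →
    Nonempty (M.Het X i d ≃+ M.H X i d)

/-- Q1: `H^i(X_et, ℤ(d))` is finitely generated for all `i ≤ 2d`, `d` the dimension of `X`. -/
def FiniteGeneration : Prop :=
  ∀ (d : ℕ) (X : Scheme.{0}), IsArithmetic X d → ∀ i : ℤ, i ≤ 2 * d → AddGroup.FG (M.Het X i d)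

/-- The part of Q1 in the degrees `0 ≤ i ≤ 2d`. -/
def FiniteGenerationNonneg : Prop :=
  ∀ (d : ℕ) (X : Scheme.{0}), IsArithmetic X d → ∀ i : ℤ, 0 ≤ i → i ≤ 2 * d →
    AddGroup.FG (M.Het X i d)

/-- The part of Q1 in the degrees `i < 0`. -/
def FiniteGenerationNeg : Prop :=
  ∀ (d : ℕ) (X : Scheme.{0}), IsArithmetic X d → ∀ i : ℤ, i < 0 → AddGroup.FG (M.Het X i d)

/-- `H^i(X, ℚ(n)) = 0` for all `X` as in the problem, all `i < 0` and all `n ≥ dim X`. -/
def VanishingOnSchemes : Prop :=
  ∀ (d : ℕ) (X : Scheme.{0}), IsArithmetic X d → ∀ i n : ℤ, i < 0 → (d : ℤ) ≤ n →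
    ∀ a : M.H X i n, a = 0

/-- `H^i(F, ℚ(n)) = 0` for all finitely generated fields `F`, all `i < 0` and all `n` which are at
least the Kronecker dimension of `F`. -/
def VanishingOnFields : Prop :=
  ∀ (d : ℕ) (F : Type) [Field F], HasKroneckerDim F d → ∀ i n : ℤ, i < 0 → (d : ℤ) ≤ n →
    M.VanishesOn F i n

/-- `H^(-1)(F, ℚ(d)) = 0` for all finitely generated fields `F`, with `d` the Kronecker dimension
of `F`. -/
def VanishingInDegreeMinusOne : Prop :=
  ∀ (d : ℕ) (F : Type) [Field F], HasKroneckerDim F d → M.VanishesOn F (-1) d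

/-- `H^0(𝔽_p(t_1, …, t_d), ℚ(d)) = 0` and `H^0(ℚ(t_1, …, t_(d-1)), ℚ(d)) = 0` for all primes `p`
and all `d ≥ 1`. -/
def VanishingForRationalFunctions : Prop :=
  ∀ d : ℕ, 1 ≤ d →
    (∀ (p : ℕ) [Fact p.Prime], M.VanishesOn (rationalFunctions ⟨ZMod p⟩ d).carrier 0 d) ∧
    M.VanishesOn (rationalFunctions ⟨ℚ⟩ (d - 1)).carrier 0 d

end Pool.Agent.X308.D
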