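import Pool.Agent.X308.D.Defs
import Mathlib.FieldTheory.PrimitiveElement
import Mathlib.FieldTheory.SeparableClosure
import Mathlib.RingTheory.Finiteness.Nakayama
import Mathlib.RingTheory.TensorProduct.Finite
import Mathlib.RingTheory.Ideal.Operations
import Mathlib.LinearAlgebra.TensorProduct.Basis

/-!
# Motivic cohomology of arithmetic schemes in weights at least the dimension
-/

set_option autoImplicit false

open CategoryTheory AlgebraicGeometry
open scoped TensorProduct

universe v

namespace Pool.Agent.X308.D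

/-! ### Algebra -/

/-- A finitely generated abelian group on which the multiplications by nonzero integers are
bijective is zero. -/
lemma zero_of_fg {A : Type v} [AddCommGroup A]
    (h : ∀ N : ℕ, N ≠ 0 → Function.Bijective (fun a : A => N • a)) (hA : AddGroup.FG A) (a : A) :
    a = 0 := by
  have h1 : Module.Finite ℤ A := Module.Finite.iff_addGroup_fg.2 hA
  have h2 : (⊤ : Submodule ℤ A) ≤ Ideal.span {(2 : ℤ)} • ⊤ := by
    intro x _
    obtain ⟨y, hy⟩ := (h 2 two_ne_zero).2 x
    have hy' : (2 : ℤ) • y = x := by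
      rw [← hy]
      exact_mod_cast rfl
    rw [← hy']
    exact Submodule.smul_mem_smul (Ideal.mem_span_singleton_self 2) trivial
  obtain ⟨r, hr, h3⟩ := Submodule.exists_sub_one_mem_and_smul_eq_zero_of_fg_of_le_smul
    (Ideal.span {(2 : ℤ)}) ⊤ h1.fg_top h2
  have h4 : r ≠ 0 := by
    rintro rfl
    rw [Ideal.mem_span_singleton] at hr
    omega
  have h5 : r • a = 0 := h3 a trivial
  have h6 : r.natAbs • a = 0 := by
    rcases Int.natAbs_eq r with h7 | h7
    · rw [h7, natCast_zsmul] at h5
      exact h5
    · rw [h7, neg_zsmul, natCast_zsmul, neg_eq_zero] at h5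
      exact h5
  apply (h r.natAbs (by simpa using h4)).1
  simpa using h6

lemma exists_compositum (K L F : Type) [Field K] [Field L] [Field F] [Algebra K L] [Algebra K F]
    [FiniteDimensional K F] : ∃ (E : Type) (_ : Field E) (_ : Algebra L E) (_ : F →+* E),
      FiniteDimensional L E := by
  have : Nontrivial (L ⊗[K] F) := inferInstance
  obtain ⟨I, hI⟩ := Ideal.exists_maximal (L ⊗[K] F)
  have hfin : Module.Finite L ((L ⊗[K] F) ⧸ I) :=
    Module.Finite.of_surjective (Ideal.Quotient.mkₐ L I).toLinearMap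
      (Ideal.Quotient.mkₐ_surjective L I)
  exact ⟨(L ⊗[K] F) ⧸ I, Ideal.Quotient.field I, inferInstance,
    (Ideal.Quotient.mk I).comp (Algebra.TensorProduct.includeRight : F →ₐ[K] L ⊗[K] F).toRingHom,
    hfin⟩

/-- A finitely generated field of Kronecker dimension `d` embeds into one of dimension `d + 1`. -/
lemma exists_hom {F : Type} [Field F] {d : ℕ} (h : HasKroneckerDim F d) :
    ∃ (E : Type) (_ : Field E) (_ : F →+* E), HasKroneckerDim E (d + 1) := by
  obtain ⟨k, e, m, _, hk, hd, _⟩ := h
  obtain ⟨E, _, halg, φ, hE⟩ := exists_compositum (rationalFunctions k m).carrier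
    (RatFunc (rationalFunctions k m).carrier) F
  exact ⟨E, _, φ, k, e, m + 1, halg, hk, by omega, hE⟩

lemma kroneckerDim_rationalFunctions {k : FieldObj} {e : ℕ} (hk : IsPrimeField k e) (m : ℕ) :
    HasKroneckerDim (rationalFunctions k m).carrier (m + e) :=
  ⟨k, e, m, Algebra.id _, hk, rfl, inferInstance⟩

lemma kroneckerDim_adjoinRoot {k : FieldObj} {e : ℕ} (hk : IsPrimeField k e) (m : ℕ)
    (p : Polynomial (rationalFunctions k m).carrier) (hp : Irreducible p) :
    @HasKroneckerDim (AdjoinRoot p) (@AdjoinRoot.instField _ _ p ⟨hp⟩) (m + e) := by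
  have : Fact (Irreducible p) := ⟨hp⟩
  exact ⟨k, e, m, inferInstance, hk, rfl, (AdjoinRoot.powerBasis hp.ne_zero).finite⟩

/-! ### Cohomology of fields -/

variable {M : MotivicData.{v}}

lemma pull_id (hK : KnownProperties M) {R : Type} [CommRing R] (i n : ℤ) (a : M.Ring R i n) :
    M.pull (RingHom.id R) i n a = a := by
  have h1 : Spec.map (CommRingCat.ofHom (RingHom.id R)) = 𝟙 (Spec (CommRingCat.of R)) := by
    rw [CommRingCat.ofHom_id]
    exact Spec.map_id _
  rw [MotivicData.pull, h1]
  exact hK.map_id _ i n a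

lemma pull_comp (hK : KnownProperties M) {R S T : Type} [CommRing R] [CommRing S] [CommRing T]
    (φ : R →+* S) (ψ : S →+* T) (i n : ℤ) (a : M.Ring R i n) :
    M.pull (ψ.comp φ) i n a = M.pull ψ i n (M.pull φ i n a) := by
  have h1 : Spec.map (CommRingCat.ofHom (ψ.comp φ)) =
      Spec.map (CommRingCat.ofHom ψ) ≫ Spec.map (CommRingCat.ofHom φ) := by
    rw [CommRingCat.ofHom_comp]
    exact Spec.map_comp _ _
  rw [MotivicData.pull, h1]
  exact hK.map_comp _ _ _ _ _ i n a

lemma zero_of_equiv (hK : KnownProperties M) {R S : Type} [CommRing R] [CommRing S] (e : R ≃+* S)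
    {i n : ℤ} (hS : ∀ a : M.Ring S i n, a = 0) (a : M.Ring R i n) : a = 0 := by
  have h1 : M.pull (e.symm : S →+* R) i n (M.pull (e : R →+* S) i n a) = a := by
    rw [← pull_comp hK, RingEquiv.symm_comp, pull_id hK]
  have h2 : M.pull (e : R →+* S) i n a = 0 := hS _
  rw [← h1, h2, map_zero]

lemma vanishes_of_hom (hK : KnownProperties M) {F L : Type} [Field F] [Field L] (φ : F →+* L)
    {i n : ℤ} (hL : M.VanishesOn L i n) : M.VanishesOn F i n := by
  intro a
  apply hK.injective F L φ i n
  rw [map_zero]
  exact hL _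

lemma mono (hK : KnownProperties M) (k : FieldObj) (m r : ℕ) {i n : ℤ}
    (h : M.VanishesOn (rationalFunctions k (m + r)).carrier i n) :
    M.VanishesOn (rationalFunctions k m).carrier i n := by
  induction r with
  | zero => exact h
  | succ r ih =>
    apply ih
    exact vanishes_of_hom hK (algebraMap (rationalFunctions k (m + r)).carrier
      (RatFunc (rationalFunctions k (m + r)).carrier)) h

/-- The degree shift: `H^i(F, ℚ(n))`, for a finite extension `F` of `K`, is a quotient
of `H^(i+1)(K(t), ℚ(n+1))`. -/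
lemma descend (hK : KnownProperties M) (K F : Type) [Field K] [Field F] [Algebra K F]
    [FiniteDimensional K F] {i n : ℤ} (h : M.VanishesOn (RatFunc K) (i + 1) (n + 1)) :
    M.VanishesOn F i n := by
  intro a
  obtain ⟨b, rfl⟩ := hK.inseparable (separableClosure K F) F i n a
  suffices hb : b = 0 by rw [hb, map_zero]
  obtain ⟨θ, hθ⟩ := Field.exists_primitive_element K (separableClosure K F)
  have hint : IsIntegral K θ := IsIntegral.of_finite _ θ
  have e1 := IntermediateField.adjoinRootEquivAdjoin K hint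
  rw [hθ] at e1
  have e : separableClosure K F ≃+* AdjoinRoot (minpoly K θ) :=
    (e1.trans IntermediateField.topEquiv).symm.toRingEquiv
  refine zero_of_equiv hK e (fun c => ?_) b
  obtain ⟨res, h3, -, -⟩ := hK.milnor K i n
  obtain ⟨d, rfl⟩ := h3 _ (minpoly.irreducible hint) c
  rw [h d, map_zero]

/-- The statement on rational function fields, in all weights at least the dimension. -/
lemma rational_weights (hK : KnownProperties M) (h : VanishingForRationalFunctions M)
    {k : FieldObj} {e : ℕ} (hk : IsPrimeField k e) (m : ℕ) (n : ℤ) (hn : 1 ≤ n)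
    (hmn : ((m + e : ℕ) : ℤ) ≤ n) : M.VanishesOn (rationalFunctions k m).carrier 0 n := by
  obtain ⟨d, rfl⟩ : ∃ d : ℕ, n = d := ⟨n.toNat, by omega⟩
  obtain ⟨h1, h2⟩ := h d (by omega)
  rcases hk with ⟨p, hp, rfl, rfl⟩ | ⟨rfl, rfl⟩
  · obtain ⟨r, rfl⟩ : ∃ r : ℕ, d = m + r := ⟨d - m, by omega⟩
    exact mono hK _ m r (h1 p)
  · obtain ⟨r, hr⟩ : ∃ r : ℕ, d - 1 = m + r := ⟨d - 1 - m, by omega⟩
    rw [hr] at h2
    exact mono hK _ m r h2

/-- (5) implies (3). -/
theorem fields_of_rational (hK : KnownProperties M) (h : VanishingForRationalFunctions M) :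
    VanishingOnFields M := by
  have key : ∀ j d : ℕ, ∀ (F : Type) [Field F], HasKroneckerDim F d → ∀ n : ℤ, (d : ℤ) ≤ n →
      M.VanishesOn F (-1 - j) n := by
    intro j
    induction j with
    | zero =>
      intro d F _ hF n hn
      obtain ⟨k, e, m, _, hk, rfl, _⟩ := hF
      apply descend hK (rationalFunctions k m).carrier F
      have h1 := rational_weights hK h hk (m + 1) (n + 1) (by omega) (by push_cast at hn ⊢; omega)
      have e1 : -1 - ((0 : ℕ) : ℤ) + 1 = 0 := by norm_num
      rw [e1]
      exact h1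
    | succ j ih =>
      intro d F _ hF n hn
      obtain ⟨k, e, m, _, hk, rfl, _⟩ := hF
      apply descend hK (rationalFunctions k m).carrier F
      have h1 := ih (m + 1 + e) _ (kroneckerDim_rationalFunctions hk (m + 1)) (n + 1)
        (by push_cast at hn ⊢; omega)
      have e1 : -1 - ((j + 1 : ℕ) : ℤ) + 1 = -1 - j := by
        push_cast
        ring
      rw [e1]
      exact h1
  intro d F _ hF i n hi hn
  obtain ⟨j, rfl⟩ : ∃ j : ℕ, i = -1 - j := ⟨(-1 - i).toNat, by omega⟩
  exact key j d F hF n hn

/-- (4) in all weights at least the dimension. -/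
lemma minusOne_weights (hK : KnownProperties M) (h : VanishingInDegreeMinusOne M) (r : ℕ) :
    ∀ (d : ℕ) (F : Type) [Field F], HasKroneckerDim F d →
      M.VanishesOn F (-1) ((d + r : ℕ) : ℤ) := by
  induction r with
  | zero => exact h
  | succ r ih =>
    intro d F _ hF
    obtain ⟨E, _, φ, hE⟩ := exists_hom hF
    have h1 := ih (d + 1) E hE
    rw [show d + 1 + r = d + (r + 1) by ring] at h1
    exact vanishes_of_hom hK φ h1

/-- (4) implies (5). -/
theorem rational_of_minusOne (hK : KnownProperties M) (h : VanishingInDegreeMinusOne M) :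
    VanishingForRationalFunctions M := by
  have key : ∀ (m : ℕ) (k : FieldObj) (e : ℕ), IsPrimeField k e → ∀ n : ℕ, 1 ≤ n → m + e ≤ n →
      M.VanishesOn (rationalFunctions k m).carrier 0 n := by
    intro m
    induction m with
    | zero =>
      intro k e hk n hn _
      exact hK.prime k e hk n (by exact_mod_cast hn)
    | succ m ih =>
      intro k e hk n hn hmn a
      obtain ⟨n, rfl⟩ : ∃ n' : ℕ, n = n' + 1 := ⟨n - 1, by omega⟩
      obtain ⟨res, -, -, h3⟩ := hK.milnor (rationalFunctions k m).carrier (-1) n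
      have h4 : M.VanishesOn (rationalFunctions k m).carrier 0 ((n + 1 : ℕ) : ℤ) :=
        ih k e hk (n + 1) (by omega) (by omega)
      obtain ⟨b, hb⟩ := h3 a fun p hp => by
        have : Fact (Irreducible p) := ⟨hp⟩
        obtain ⟨r, rfl⟩ : ∃ r : ℕ, n = m + e + r := ⟨n - (m + e), by omega⟩
        exact minusOne_weights hK h r (m + e) (AdjoinRoot p) (kroneckerDim_adjoinRoot hk m p hp) _
      have h5 : b = 0 := h4 b
      rw [h5, map_zero] at hb
      exact hb.symm
  intro d hd
  refine ⟨fun p _ => ?_, ?_⟩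
  · exact key d ⟨ZMod p⟩ 0 (Or.inl ⟨p, inferInstance, rfl, rfl⟩) d hd (by omega)
  · exact key (d - 1) ⟨ℚ⟩ 1 (Or.inr ⟨rfl, rfl⟩) d hd (by omega)

/-! ### Schemes -/

lemma zero_of_neg (hK : KnownProperties M) (h : FiniteGenerationNeg M) {d : ℕ} {X : Scheme.{0}}
    (hX : IsArithmetic X d) {i : ℤ} (hi : i < 0) (a : M.H X i d) : a = 0 := by
  obtain ⟨e⟩ := hK.etale d X hX i hi
  have h1 := h d X hX i hi
  have h2 : AddGroup.FG (M.H X i d) := AddGroup.fg_of_surjective (f := (e : M.Het X i d →+ _))
    e.surjective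
  exact zero_of_fg (hK.rational X i d) h2 a

/-- (1) implies (4). -/
theorem minusOne_of_neg (hK : KnownProperties M) (h : FiniteGenerationNeg M) :
    VanishingInDegreeMinusOne M := by
  have key : ∀ (d : ℕ) (F : Type) [Field F], HasKroneckerDim F d → ∀ i : ℤ, i < 0 →
      M.VanishesOn F i d := by
    intro d
    induction d using Nat.strong_induction_on with
    | _ d ih =>
      intro F _ hF i hi
      obtain ⟨X, hX, h1⟩ := hK.alterations d F hF
      refine h1 i d (fun a => zero_of_neg hK h hX hi a) fun c κ _ hc hcd hκ => ?_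
      have h2 := ih (d - c) (by omega) κ hκ (i + 1 - 2 * c) (by omega)
      rwa [Nat.cast_sub hcd] at h2
  intro d F _ hF
  exact key d F hF (-1) (by norm_num)

/-- (3) implies (2). -/
theorem schemes_of_fields (hK : KnownProperties M) (h : VanishingOnFields M) :
    VanishingOnSchemes M := by
  intro d X hX i n hi hn
  refine hK.coniveau d X hX i n fun c κ _ hc hκ => ?_
  exact h (d - c) κ hκ _ _ (by omega) (by push_cast [hc]; omega)

/-- (2) implies (1). -/
theorem neg_of_schemes (hK : KnownProperties M) (h : VanishingOnSchemes M) :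
    FiniteGenerationNeg M := by
  intro d X hX i hi
  obtain ⟨e⟩ := hK.etale d X hX i hi
  have h1 : ∀ a : M.Het X i d, a = 0 := by
    intro a
    apply e.injective
    rw [map_zero]
    exact h d X hX i d hi le_rfl _
  have : Subsingleton (M.Het X i d) := ⟨fun a b => (h1 a).trans (h1 b).symm⟩
  infer_instance

/-- **The part of Q1 in negative degrees.** -/
theorem neg_iff (hK : KnownProperties M) :
    List.TFAE [FiniteGenerationNeg M, VanishingOnSchemes M, VanishingOnFields M,
      VanishingInDegreeMinusOne M, VanishingForRationalFunctions M] := by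
  tfae_have 1 → 4 := minusOne_of_neg hK
  tfae_have 4 → 5 := rational_of_minusOne hK
  tfae_have 5 → 3 := fields_of_rational hK
  tfae_have 3 → 2 := schemes_of_fields hK
  tfae_have 2 → 1 := neg_of_schemes hK
  tfae_finish

theorem fg_iff (hK : KnownProperties M) :
    FiniteGeneration M ↔ FiniteGenerationNonneg M ∧ VanishingForRationalFunctions M := by
  have h1 := (neg_iff hK).out 0 4
  rw [← h1]
  constructor
  · intro h
    exact ⟨fun d X hX i _ hi => h d X hX i hi, fun d X hX i hi => h d X hX i (by omega)⟩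
  · rintro ⟨h2, h3⟩ d X hX i hi
    rcases lt_or_ge i 0 with h4 | h4
    · exact h3 d X hX i h4
    · exact h2 d X hX i h4 hi

end Pool.Agent.X308.D
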